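import Pool.Agent.Results.MP_c59389_nt.AllHeightsFullTwoTorsion
import Pool.Agent.V11326.WO1

/-!
# Frey's inequality for ALL elliptic curves with full two-torsion, of whatever height, whose bad primes lie in windows

Let `L` be a number field of degree `n`. Frey's inequality says `h_F(A) ≤ (n / 2 + ε) log N_A + c` for all abelian varieties
`A` over `ℚ` of dimension `n`. We consider the Weil restrictions `A = Res_{L/ℚ} E` of the elliptic curves `E` over `L` with full
`L`-rational two-torsion; `h_F(A) = n h_F(E)`, and the product `badNorm E` of the norms of the bad primes divides `N_A`. For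
the invariant `j` of such a curve let `minNorm j` be the least `badNorm E` for the curves `E` of invariant `j` with full
two-torsion. There are `X ^ (2 / 3 + o(1))` invariants with `minNorm j ≤ X`.

Let `κ > 1 / 6` (`1 / 6` is smaller than all of Frey's slopes). There is `ν > 0` such that for all sequences `v_k ≥ 1` with
exponent of convergence at most `τ` (for example `v_k = 2 ^ k`, `τ = 0`) and all `θ < 1` there is a set `F` of real numbers of
Hausdorff dimension at most `(1 - ν + τ) / (1 - θ)`, of measure zero if `τ + θ < ν`, such that for all real `β` outside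
`F` and all `c`: for ALL BUT FINITELY MANY of the invariants `j`, of whatever height, with
`|minNorm j ^ (2 / 3) - β v_k| ≤ v_k ^ θ` for some `k`, ALL curves `E` of invariant `j` with full two-torsion satisfy
`h_F(A) < κ log (badNorm E) + c`.

The proof combines the starting result `AllHeightsFullTwoTorsion` with a covering argument. The definitions of `FullTwo`,
`badNorm`, `faltings`, `IsPeriod` are those of that file.
-/

set_option autoImplicit false

namespace Pool.Agent.Results.MP_c59389_nt.ConductorWindows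

open NumberField IsDedekindDomain MeasureTheory
open Pool.Agent.Results.MP_c59389_nt.AllHeightsFullTwoTorsion

/-- The exponent of convergence of the sequence `v` is at most `τ`: the sum of the `v_n ^ (-p)` converges for all
`p > τ`. -/
def ExpLe (v : ℕ → ℝ) (τ : ℝ) : Prop := ∀ p : ℝ, τ < p → Summable fun n => (v n) ^ (-p)

/-- The products of the norms of the bad primes of the elliptic curves over `L` with full two-torsion and invariant `j`. -/
def badNorms (L : Type) [Field L] [NumberField L] (j : L) : Set ℝ :=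
  {x | ∃ E : WeierstrassCurve L, E.Δ ≠ 0 ∧ FullTwo E ∧ E.c₄ ^ 3 / E.Δ = j ∧ badNorm E = x}

/-- The least of these products. -/
noncomputable def minNorm (L : Type) [Field L] [NumberField L] (j : L) : ℝ := sInf (badNorms L j)

/-- The invariants `j` of the elliptic curves `E` over `L` with full two-torsion, of whatever height, with
`|minNorm j ^ (2 / 3) - β v_k| ≤ v_k ^ θ` for some `k`, for which some `E` satisfies
`κ log (badNorm E) + c ≤ n h_F(E) = h_F(A)`. -/
def HighInWindows (L : Type) [Field L] [NumberField L] (κ c : ℝ) (v : ℕ → ℝ) (β θ : ℝ) : Set L :=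
  {j | ∃ (E : WeierstrassCurve L) (τ : InfinitePlace L → UpperHalfPlane), E.Δ ≠ 0 ∧ FullTwo E ∧
    E.c₄ ^ 3 / E.Δ = j ∧ (∃ k : ℕ, |minNorm L j ^ (2 / 3 : ℝ) - β * v k| ≤ (v k) ^ θ) ∧ IsPeriod j τ ∧
    κ * Real.log (badNorm E) + c ≤ Module.finrank ℚ L * faltings j τ}

section

variable {L : Type} [Field L] [NumberField L]

theorem one_le_bad (E : WeierstrassCurve L) : 1 ≤ badNorm E := by
  have h : ∀ v : HeightOneSpectrum (𝓞 L), (1 : ℝ) ≤ (Ideal.absNorm v.asIdeal : ℝ) := fun v => by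
    have h1 : Ideal.absNorm v.asIdeal ≠ 0 := fun h => v.ne_bot (Ideal.absNorm_eq_zero_iff.1 h)
    exact_mod_cast Nat.one_le_iff_ne_zero.2 h1
  unfold badNorm
  exact finprod_mem_induction (fun x : ℝ => 1 ≤ x) le_rfl
    (fun x y hx hy => one_le_mul_of_one_le_of_one_le hx hy) fun v _ => h v

theorem one_le_min {j : L} (h : (badNorms L j).Nonempty) : 1 ≤ minNorm L j := by
  refine le_csInf h ?_
  rintro x ⟨E, -, -, -, rfl⟩
  exact one_le_bad E

theorem min_le (E : WeierstrassCurve L) (h1 : E.Δ ≠ 0) (h2 : FullTwo E) {j : L} (h3 : E.c₄ ^ 3 / E.Δ = j) :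
    minNorm L j ≤ badNorm E := by
  refine csInf_le ⟨1, ?_⟩ ⟨E, h1, h2, h3, rfl⟩
  rintro x ⟨E', -, -, -, rfl⟩
  exact one_le_bad E'

theorem near_min {j : L} (h : (badNorms L j).Nonempty) :
    ∃ E : WeierstrassCurve L, E.Δ ≠ 0 ∧ FullTwo E ∧ E.c₄ ^ 3 / E.Δ = j ∧ badNorm E < 2 * minNorm L j := by
  have h1 := one_le_min h
  obtain ⟨x, ⟨E, h2, h3, h4, rfl⟩, h5⟩ := exists_lt_of_csInf_lt h (show minNorm L j < 2 * minNorm L j by linarith)
  exact ⟨E, h2, h3, h4, h5⟩

end

/-- a power saving for all `X ≥ 1` -/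
theorem count (L : Type) [Field L] [NumberField L] (κ c : ℝ) (hκ : 1 / 6 < κ) :
    ∃ ν C : ℝ, 0 < ν ∧ 0 ≤ C ∧ ν ≤ 2 / 3 ∧ ∀ X : ℝ, 1 ≤ X → (Violators L κ c X).Finite ∧
      ((Violators L κ c X).ncard : ℝ) ≤ C * X ^ (2 / 3 - ν) := by
  obtain ⟨h1, h2, -⟩ := AllHeightsFullTwoTorsion.result L
  obtain ⟨ν, X₀, hν, h2⟩ := h2 κ c hκ
  obtain ⟨X₁, h1⟩ := h1 (ν / 2) (by positivity)
  obtain ⟨X₂, hX₂⟩ : ∃ X₂ : ℝ, X₂ = max (max X₀ X₁) 1 := ⟨_, rfl⟩
  have hsub : ∀ X : ℝ, Violators L κ c X ⊆ Invariants L X := fun X q hq => by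
    obtain ⟨E, τ, h3, h4, h5, h6, -⟩ := hq
    exact ⟨E, h3, h4, h5, h6⟩
  have hfin2 : (Invariants L X₂).Finite :=
    (h1 X₂ (by rw [hX₂]; exact (le_max_right _ _).trans (le_max_left _ _))).1
  have hmin0 : 0 ≤ 2 / 3 - min (ν / 2) (2 / 3) := by linarith [min_le_right (ν / 2) (2 / 3)]
  refine ⟨min (ν / 2) (2 / 3), 1 + ((Invariants L X₂).ncard : ℝ), lt_min (by positivity) (by norm_num), by positivity,
    min_le_right _ _, fun X hX => ?_⟩
  have hX0 : 0 < X := by linarith
  have hX1 : 1 ≤ X ^ (2 / 3 - min (ν / 2) (2 / 3)) := Real.one_le_rpow hX hmin0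
  by_cases hXX : X₂ ≤ X
  · have h3 : X₀ ≤ X := ((le_max_left _ _).trans (le_max_left _ _)).trans (hX₂ ▸ hXX)
    have h4 : X₁ ≤ X := ((le_max_right _ _).trans (le_max_left _ _)).trans (hX₂ ▸ hXX)
    obtain ⟨h5, -, h6⟩ := h1 X h4
    refine ⟨h5.subset (hsub X), ?_⟩
    calc ((Violators L κ c X).ncard : ℝ) ≤ X ^ (-ν) * (Invariants L X).ncard := h2 X h3
      _ ≤ X ^ (-ν) * X ^ (2 / 3 + ν / 2) := mul_le_mul_of_nonneg_left h6 (Real.rpow_nonneg hX0.le _)
      _ = X ^ (2 / 3 - ν / 2) := by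
          rw [← Real.rpow_add hX0]
          congr 1
          ring
      _ ≤ X ^ (2 / 3 - min (ν / 2) (2 / 3)) :=
          Real.rpow_le_rpow_of_exponent_le hX (by linarith [min_le_left (ν / 2) (2 / 3)])
      _ ≤ (1 + ((Invariants L X₂).ncard : ℝ)) * X ^ (2 / 3 - min (ν / 2) (2 / 3)) := by
          have : (0 : ℝ) ≤ ((Invariants L X₂).ncard : ℝ) := Nat.cast_nonneg _
          nlinarith
  · have hmono : Violators L κ c X ⊆ Invariants L X₂ := fun q hq => by
      obtain ⟨E, h3, h4, h5, h6⟩ := hsub X hq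
      exact ⟨E, h3, h4, h5, h6.trans (not_le.1 hXX).le⟩
    refine ⟨hfin2.subset hmono, ?_⟩
    have h3 : ((Violators L κ c X).ncard : ℝ) ≤ ((Invariants L X₂).ncard : ℝ) := by
      exact_mod_cast Set.ncard_le_ncard hmono hfin2
    have h4 : (0 : ℝ) ≤ ((Invariants L X₂).ncard : ℝ) := Nat.cast_nonneg _
    nlinarith

theorem result (L : Type) [Field L] [NumberField L] (κ : ℝ) (hκ : 1 / 6 < κ) :
    ∃ ν : ℝ, 0 < ν ∧ ν ≤ 1 ∧ ∀ (v : ℕ → ℝ) (τ θ : ℝ), (∀ n, 1 ≤ v n) → 0 ≤ τ → ExpLe v τ → θ < 1 →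
      ∃ F : Set ℝ, dimH F ≤ ENNReal.ofReal ((1 - ν + τ) / (1 - θ)) ∧ (τ + θ < ν → volume F = 0) ∧
        ∀ β : ℝ, β ∉ F → ∀ c : ℝ, (HighInWindows L κ c v β θ).Finite := by
  obtain ⟨κ', hκ'⟩ : ∃ κ' : ℝ, κ' = (κ + 1 / 6) / 2 := ⟨_, rfl⟩
  have hκ1 : 1 / 6 < κ' := by rw [hκ']; linarith
  have hκ2 : κ' < κ := by rw [hκ']; linarith
  have hκ0 : 0 < κ' := by linarith
  obtain ⟨ν, C, hν, hC0, hν23, hC⟩ := count L κ' (-(κ' * Real.log 2)) hκ1
  obtain ⟨h1, -, -⟩ := AllHeightsFullTwoTorsion.result L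
  obtain ⟨X₁, h1⟩ := h1 1 one_pos
  have hcur : ∀ X : ℝ, (Invariants L X).Finite := by
    intro X
    refine (h1 (max X X₁) (le_max_right _ _)).1.subset fun q hq => ?_
    obtain ⟨E, h3, h4, h5, h6⟩ := hq
    exact ⟨E, h3, h4, h5, h6.trans (le_max_left _ _)⟩
  have hlog2 : 0 < Real.log 2 := Real.log_pos (by norm_num)
  obtain ⟨ν', hν', hν1, hmain⟩ := Pool.Agent.V11326.WO1.single (T := L) (r := 2 / 3) (by norm_num)
    {j : L | ∃ τ : InfinitePlace L → UpperHalfPlane, IsPeriod j τ ∧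
      κ' * Real.log (minNorm L j) ≤ Module.finrank ℚ L * faltings j τ}
    (fun j => (badNorms L j).Nonempty) (fun j => Real.log (minNorm L j)) hν (C := C * 2 ^ (2 / 3 - ν))
    (fun X hX => by
      refine (hcur (2 * X)).subset ?_
      rintro j ⟨h2, h3⟩
      have h4 := one_le_min h2
      have h5 := (Real.log_le_log_iff (by linarith) (by linarith)).1 h3
      obtain ⟨E, h6, h7, h8, h9⟩ := near_min h2
      exact ⟨E, h6, h7, h8, by linarith⟩)
    (fun X hX => by
      obtain ⟨h3, h4⟩ := hC (2 * X) (by linarith)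
      rw [mul_assoc, ← Real.mul_rpow (by norm_num) (by linarith)]
      refine le_trans ?_ h4
      refine Nat.cast_le.2 (Set.ncard_le_ncard ?_ h3)
      rintro j ⟨⟨τ, h5, h6⟩, h7, h8⟩
      have h9 := one_le_min h7
      have h10 := (Real.log_le_log_iff (by linarith) (by linarith)).1 h8
      obtain ⟨E, h11, h12, h13, h14⟩ := near_min h7
      refine ⟨E, τ, h11, h12, h13, by linarith, h5, le_trans ?_ h6⟩
      have h15 := one_le_bad E
      have h16 : Real.log (badNorm E) ≤ Real.log 2 + Real.log (minNorm L j) := by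
        rw [← Real.log_mul (by norm_num) (by linarith)]
        exact Real.log_le_log (by linarith) h14.le
      nlinarith)
  refine ⟨ν', hν', hν1, fun v τ θ hv hτ hvτ hθ => ?_⟩
  obtain ⟨F, hF, hF0, h⟩ := hmain v τ θ hv hτ hvτ hθ
  refine ⟨F, hF, hF0, fun β hβ c => ?_⟩
  obtain ⟨n₀, hn⟩ := h β hβ
  obtain ⟨B, hB⟩ : ∃ B : ℝ, B = ∑ n ∈ Finset.range n₀, (|β| * v n + (v n) ^ θ) := ⟨_, rfl⟩
  have hterm : ∀ n, 0 ≤ |β| * v n + (v n) ^ θ := fun n => by
    have hn0 : 0 ≤ v n := by linarith [hv n]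
    positivity
  refine (hcur (2 * max (Real.exp (|c| / (κ - κ'))) (B ^ (3 / 2 : ℝ)))).subset ?_
  rintro j ⟨E, σ, h3, h4, h5, ⟨n, h6⟩, h7, h8⟩
  have hne : (badNorms L j).Nonempty := ⟨_, E, h3, h4, h5, rfl⟩
  have hm1 := one_le_min hne
  have hm0 : 0 < minNorm L j := by linarith
  obtain ⟨E', g1, g2, g3, g4⟩ := near_min hne
  refine ⟨E', g1, g2, g3, g4.le.trans (mul_le_mul_of_nonneg_left ?_ (by norm_num))⟩
  have hmin := min_le E h3 h4 h5
  by_cases hnn : n₀ ≤ n
  · refine le_trans ?_ (le_max_left _ _)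
    have h9 : ¬ κ' * Real.log (minNorm L j) ≤ Module.finrank ℚ L * faltings j σ := by
      intro h10
      refine hn n hnn j hne ?_ ⟨σ, h7, h10⟩
      rw [mul_comm, ← Real.rpow_def_of_pos hm0]
      exact h6
    have hκp : 0 < κ := by linarith
    have h10 : (κ - κ') * Real.log (minNorm L j) ≤ |c| := by
      have h11 := neg_abs_le c
      have h12 : Real.log (minNorm L j) ≤ Real.log (badNorm E) := Real.log_le_log hm0 hmin
      have h13 : κ * Real.log (minNorm L j) ≤ κ * Real.log (badNorm E) := mul_le_mul_of_nonneg_left h12 hκp.le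
      nlinarith [not_le.1 h9]
    have h12 : Real.log (minNorm L j) ≤ |c| / (κ - κ') := by
      rw [le_div_iff₀ (by linarith), mul_comm]
      exact h10
    exact (Real.log_le_iff_le_exp hm0).1 h12
  · refine le_trans ?_ (le_max_right _ _)
    have h9 : minNorm L j ^ (2 / 3 : ℝ) ≤ B := by
      have h10 := (abs_le.1 h6).2
      have h11 : β * v n ≤ |β| * v n := mul_le_mul_of_nonneg_right (le_abs_self β) (by linarith [hv n])
      have h12 : |β| * v n + (v n) ^ θ ≤ B := by
        rw [hB]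
        exact Finset.single_le_sum (f := fun n => |β| * v n + (v n) ^ θ) (fun n _ => hterm n)
          (Finset.mem_range.2 (not_le.1 hnn))
      linarith
    calc minNorm L j = (minNorm L j ^ (2 / 3 : ℝ)) ^ (3 / 2 : ℝ) := by
          rw [← Real.rpow_mul hm0.le]
          norm_num
      _ ≤ B ^ (3 / 2 : ℝ) := Real.rpow_le_rpow (Real.rpow_nonneg hm0.le _) h9 (by norm_num)

end Pool.Agent.Results.MP_c59389_nt.ConductorWindows
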