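import Pool.Agent.Results.MP_c59389_nt.WindowsAllCurves
import Pool.Agent.V11001.KM.Near

/-!
# Frey's inequality near the powers of almost every number, without exceptions

Frey's inequality says that `h_F(A) ≤ (n / 2 + ε) log N_A + c` for all abelian varieties `A` over
`ℚ` of dimension `n`. Here `A = Res_{L/ℚ} E` is the Weil restriction of an elliptic curve `E` over a
number field `L` of degree `n` (for `n = 1` these are all elliptic curves over `ℚ`).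

Let `ν m / log m → ∞`, for example `ν m = m`. For almost every real `x > 1`, for ALL `n` at once and
all `κ > 0`, `θ < 1 - a_n / (12 κ)` (`a_1 = 5 / 2`, `a_n = O(log² n)`) and every constant `c`, ALL
elliptic curves over ALL number fields of degree `n` whose modular invariant has a sufficiently large
height `H` (relative to the field) with `|H - x ^ (ν m)| ≤ x ^ (θ ν m)` for some `m` satisfy
`h_F(A) ≤ κ log N + c`, `N` a divisor of the conductor of `A`. For elliptic curves over `ℚ` and the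
conjectural slope `κ = 1 / 2` (and `c` arbitrary, for example negative) this is the range `θ < 7 / 12`.
-/

set_option autoImplicit false

namespace Pool.Agent.Results.MP_c59389_nt.CurvesNearPowers

open NumberField IsDedekindDomain Filter MeasureTheory
open Pool.Agent.V11001.KM (Fast Near)
open WindowsAllCurves (jInv arch faltings IsPeriod FullTwo GoodAt badNorm expo Frey T ht ht_eq emb emb_injective
  one_le_N Viol)

/-- All elliptic curves `E` with the property `P` over all number fields `L` of degree `n`, whose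
modular invariant has a height `H ≥ H₀` relative to `L` with `|H - y x ^ (ν m)| ≤ x ^ (θ ν m)` for
some `m`, satisfy Frey's inequality with slope `κ` and the constant `c`. -/
def FreyNear (n : ℕ) (P : ∀ {L : Type} [Field L], WeierstrassCurve L → Prop)
    (ν : ℕ → ℝ) (θ y x κ c : ℝ) : Prop :=
  ∃ H₀ : ℝ, ∀ (L : IntermediateField ℚ (AlgebraicClosure ℚ)) [NumberField L]
    (E : WeierstrassCurve L) (τ : InfinitePlace L → UpperHalfPlane),
    Module.finrank ℚ L = n → E.Δ ≠ 0 → P E → IsPeriod (E.c₄ ^ 3 / E.Δ) τ →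
    H₀ ≤ Height.mulHeight₁ (E.c₄ ^ 3 / E.Δ) → Near ν θ y x (Height.mulHeight₁ (E.c₄ ^ 3 / E.Δ)) →
    Frey κ c E τ

/-- the shape of the starting counts of violators -/
def Counted (n : ℕ) (P : ∀ {L : Type} [Field L], WeierstrassCurve L → Prop) (s : ℝ) : Prop :=
  ∀ κ c δ : ℝ, 0 < κ → 0 < δ → ∃ M : ℝ, ∀ B : ℝ, 1 ≤ B →
    ∃ V : Set (IntermediateField ℚ (AlgebraicClosure ℚ) × AlgebraicClosure ℚ),
      V.Finite ∧ (V.ncard : ℝ) ≤ M * B ^ (s / κ + δ) ∧
      ∀ (L : IntermediateField ℚ (AlgebraicClosure ℚ)) (_ : NumberField L)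
        (E : WeierstrassCurve L) (τ : InfinitePlace L → UpperHalfPlane),
        Module.finrank ℚ L = n → E.Δ ≠ 0 → P E → IsPeriod (E.c₄ ^ 3 / E.Δ) τ →
        (n : ℝ) * faltings (E.c₄ ^ 3 / E.Δ) τ ≤ Real.log B → ¬ Frey κ c E τ →
        (L, ((E.c₄ ^ 3 / E.Δ : L) : AlgebraicClosure ℚ)) ∈ V

/-- the count of the modular invariants of the violators, ordered by height -/
theorem count {n : ℕ} {P : ∀ {L : Type} [Field L], WeierstrassCurve L → Prop} {s : ℝ}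
    (hcount : Counted n P s) {κ : ℝ} (hκ0 : 0 < κ) (c ε : ℝ) (hε : 0 < ε) :
    ∃ C : ℝ, ∀ X : ℝ, 1 ≤ X → {t | t ∈ Viol n P κ c ∧ ht t ≤ X}.Finite ∧
      (({t | t ∈ Viol n P κ c ∧ ht t ≤ X}.ncard : ℕ) : ℝ) ≤ C * X ^ (s / (12 * κ) + ε) := by
  classical
  obtain ⟨c1, hc1, hfal⟩ := Pool.Agent.Y729.FW.fal_two
  obtain ⟨M, hM⟩ := hcount κ c (12 * ε) hκ0 (by positivity)
  set q : ℝ := s / κ + 12 * ε with hq
  refine ⟨M * Real.exp (c1 * n / 12 * q), fun X hX => ?_⟩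
  have hX0 : 0 < X := by linarith
  set B : ℝ := Real.exp ((Real.log X + c1 * n) / 12) with hB
  have hlX : 0 ≤ Real.log X := Real.log_nonneg hX
  have hB1 : 1 ≤ B := by
    rw [hB]
    exact Real.one_le_exp (by positivity)
  obtain ⟨V, hVf, hVc, hV⟩ := hM B hB1
  have hsub : emb '' {t | t ∈ Viol n P κ c ∧ ht t ≤ X} ⊆ V := by
    rintro _ ⟨⟨L, j⟩, ⟨⟨hL, E, τ', h1, h2, h3, h4, h5, h6⟩, h7⟩, rfl⟩
    simp only at h1 h2 h3 h4 h5 h6
    have h7' : Height.mulHeight₁ (E.c₄ ^ 3 / E.Δ) ≤ X := by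
      rw [h4, ← ht_eq L j]
      exact h7
    have h8 := hfal L (E.c₄ ^ 3 / E.Δ) τ' h5
    have h9 : Height.logHeight₁ (E.c₄ ^ 3 / E.Δ) ≤ Real.log X := by
      unfold Height.logHeight₁
      exact Real.log_le_log (lt_of_lt_of_le one_pos (Height.one_le_mulHeight₁ _)) h7'
    have h10 : (n : ℝ) * faltings (E.c₄ ^ 3 / E.Δ) τ' ≤ Real.log B := by
      rw [hB, Real.log_exp, le_div_iff₀ (by norm_num)]
      have h11 : (12 : ℝ) * (Module.finrank ℚ L : ℝ) * faltings (E.c₄ ^ 3 / E.Δ) τ' ≤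
          Height.logHeight₁ (E.c₄ ^ 3 / E.Δ) + c1 * (Module.finrank ℚ L : ℝ) := h8
      rw [h1] at h11
      linarith
    have h12 := hV L hL E τ' h1 h2 h3 h5 h10 h6
    show (L, (j : AlgebraicClosure ℚ)) ∈ V
    rw [← h4]
    exact h12
  have hfin : {t | t ∈ Viol n P κ c ∧ ht t ≤ X}.Finite :=
    Set.Finite.of_finite_image (hVf.subset hsub) emb_injective.injOn
  refine ⟨hfin, ?_⟩
  have h13 : ({t | t ∈ Viol n P κ c ∧ ht t ≤ X}.ncard : ℝ) ≤ V.ncard := by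
    rw [← Set.ncard_image_of_injective _ emb_injective]
    exact_mod_cast Set.ncard_le_ncard hsub hVf
  refine h13.trans (hVc.trans (le_of_eq ?_))
  rw [mul_assoc]
  congr 1
  rw [hB, ← Real.exp_mul, Real.rpow_def_of_pos hX0, ← Real.exp_add]
  congr 1
  rw [hq]
  field_simp
  ring

/-- from thresholds for the violators to Frey's inequality -/
theorem frey_of {n : ℕ} {P : ∀ {L : Type} [Field L], WeierstrassCurve L → Prop} {ν : ℕ → ℝ}
    {θ y x κ' κ c : ℝ} (hκ : κ' ≤ κ)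
    (h : ∀ l : ℕ, ∃ H₀ : ℝ, ∀ t ∈ Viol n P κ' (-(l : ℝ)), Near ν θ y x (ht t) → ht t < H₀) :
    FreyNear n P ν θ y x κ c := by
  obtain ⟨l, hl⟩ := exists_nat_ge (-c)
  obtain ⟨H₀, hH⟩ := h l
  refine ⟨H₀, fun L _ E τ' hn hΔ hP hτ' hlarge hw => ?_⟩
  by_contra hcon
  have hN := one_le_N E hΔ
  have hmem : (⟨L, E.c₄ ^ 3 / E.Δ⟩ : T) ∈ Viol n P κ' (-(l : ℝ)) := by
    refine ⟨inferInstance, E, τ', hn, hΔ, hP, rfl, hτ', ?_⟩
    intro hfr
    apply hcon
    unfold Frey at hfr ⊢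
    have h1 : κ' * Real.log (badNorm E * |(discr L : ℝ)| ^ 2) ≤
        κ * Real.log (badNorm E * |(discr L : ℝ)| ^ 2) :=
      mul_le_mul_of_nonneg_right hκ hN
    linarith
  have h2 := hH _ hmem (by rw [ht_eq]; exact hw)
  rw [ht_eq] at h2
  linarith

/-- the dimension statement -/
theorem near_dim {n : ℕ} {P : ∀ {L : Type} [Field L], WeierstrassCurve L → Prop} {s : ℝ} (hs : 0 ≤ s)
    (hcount : Counted n P s) {κ₀ : ℝ} (hκ₀ : 0 < κ₀) {ν : ℕ → ℝ} (hν : Fast ν) {U : Set ℝ} (hU : U.Countable)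
    {θ : ℝ} (hθ : θ < 1) :
    ∃ S : Set ℝ, dimH S ≤ ENNReal.ofReal (s / (12 * κ₀) / (1 - θ)) ∧
      ∀ x : ℝ, 1 < x → x ∉ S → ∀ y ∈ U, 0 < y → ∀ κ c : ℝ, κ₀ < κ → FreyNear n P ν θ y x κ c := by
  obtain ⟨S, h1, h2⟩ := Pool.Agent.V11001.KM.family_threshold ht hν
    (s := s / (12 * κ₀)) (by positivity) hθ U hU (J := ℕ) (fun l => Viol n P κ₀ (-(l : ℝ)))
    (fun l ε hε => count hcount hκ₀ _ ε hε)
  exact ⟨S, h1, fun x hx hxS y hy hy0 κ c hκ => frey_of hκ.le (h2 x hx hxS y hy hy0)⟩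

/-- the statement for almost every base -/
theorem near_ae {P : ∀ {L : Type} [Field L], WeierstrassCurve L → Prop} (N : Set ℕ) {s : ℕ → ℝ}
    (hs : ∀ n, 0 ≤ s n) (hcount : ∀ n ∈ N, Counted n P (s n)) {ν : ℕ → ℝ} (hν : Fast ν) {U : Set ℝ}
    (hU : U.Countable) :
    ∀ᵐ x : ℝ, 1 < x → ∀ n ∈ N, ∀ κ : ℝ, 0 < κ → ∀ θ : ℝ, θ < 1 - s n / (12 * κ) → ∀ y ∈ U, 0 < y →
      ∀ c : ℝ, FreyNear n P ν θ y x κ c := by
  have hq : ∀ (n : ℕ) (κ : ℚ), ∀ᵐ x : ℝ, n ∈ N → 0 < (κ : ℝ) → 1 < x → ∀ θ : ℝ,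
      θ < 1 - s n / (12 * (κ : ℝ)) → ∀ y ∈ U, 0 < y → ∀ l : ℕ,
        ∃ H₀ : ℝ, ∀ t ∈ Viol n P (κ : ℝ) (-(l : ℝ)), Near ν θ y x (ht t) → ht t < H₀ := by
    intro n κ
    by_cases h : n ∈ N ∧ 0 < (κ : ℝ)
    · have hsn := hs n
      have hκ := h.2
      filter_upwards [Pool.Agent.V11001.KM.ae_family_threshold ht hν (s := s n / (12 * (κ : ℝ)))
        (by positivity) U hU (J := ℕ) (fun l => Viol n P (κ : ℝ) (-(l : ℝ)))
        (fun l ε hε => count (hcount n h.1) h.2 _ ε hε)] with x hx _ _ hx1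
      exact hx hx1
    · exact Eventually.of_forall fun x g1 g2 => absurd ⟨g1, g2⟩ h
  have hall : ∀ᵐ x : ℝ, ∀ (n : ℕ) (κ : ℚ), n ∈ N → 0 < (κ : ℝ) → 1 < x → ∀ θ : ℝ,
      θ < 1 - s n / (12 * (κ : ℝ)) → ∀ y ∈ U, 0 < y → ∀ l : ℕ,
        ∃ H₀ : ℝ, ∀ t ∈ Viol n P (κ : ℝ) (-(l : ℝ)), Near ν θ y x (ht t) → ht t < H₀ := by
    rw [ae_all_iff]
    intro n
    rw [ae_all_iff]
    exact hq n
  filter_upwards [hall] with x hx hx1 n hn κ hκ θ hθ y hy hy0 c
  have hsn := hs n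
  have hθ1 : 0 < 1 - θ := by
    have : 0 ≤ s n / (12 * κ) := by positivity
    linarith
  have h1 : s n / (12 * (1 - θ)) < κ := by
    have h2 : s n / (12 * κ) < 1 - θ := by linarith
    rw [div_lt_iff₀ (by positivity)] at h2 ⊢
    nlinarith
  obtain ⟨κ', hκ1, hκ2⟩ := exists_rat_btwn h1
  have hκ0 : 0 < (κ' : ℝ) := lt_of_le_of_lt (by positivity) hκ1
  refine frey_of hκ2.le (hx n κ' hn hκ0 hx1 θ ?_ y hy hy0)
  have h3 : s n / (12 * (κ' : ℝ)) < 1 - θ := by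
    rw [div_lt_iff₀ (by positivity)] at hκ1 ⊢
    nlinarith
  linarith

/-- **Theorem.** There is `a : ℕ → ℝ` with `a 1 = 5 / 2`, `a n ≤ max (5 / 2) (15 / 8 + expo n / 2)` for
`n ≥ 2`, `a n = O(log ^ 2 n)`, such that for all `ν` with `ν m / log m → ∞` and all countable sets `U` of
reals: (1) for all `n ≥ 1`, `κ₀ > 0` and `θ < 1` there is a set `S` of Hausdorff dimension at most
`(a n / (12 κ₀)) / (1 - θ)` such that for all `x > 1` outside `S` and all positive `y` in `U`, ALL elliptic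
curves over ALL number fields of degree `n` whose modular invariant has a large height near some
`y x ^ (ν m)` satisfy Frey's inequality with all slopes `κ > κ₀` and all constants `c`; (2) for almost
every `x > 1` this holds for all `n ≥ 1`, all `κ > 0` and all `θ < 1 - a n / (12 κ)`. For curves with full
two-torsion (`n ≥ 2`) the same holds with exponents `e n ≤ max (2 / 3) (expo n / 2)`. -/
theorem result :
    (∃ a : ℕ → ℝ,
      (∀ c : ℝ, 1 / (16 * (Real.log 2) ^ 2) < c → ∀ᶠ n : ℕ in atTop, a n ≤ c * (Real.log n) ^ 2) ∧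
      a 1 = 5 / 2 ∧ (∀ n : ℕ, 2 ≤ n → a n ≤ max (5 / 2) (15 / 8 + expo n / 2)) ∧
      ∀ ν : ℕ → ℝ, Fast ν → ∀ U : Set ℝ, U.Countable →
        (∀ n : ℕ, 1 ≤ n → ∀ κ₀ θ : ℝ, 0 < κ₀ → θ < 1 →
          ∃ S : Set ℝ, dimH S ≤ ENNReal.ofReal (a n / (12 * κ₀) / (1 - θ)) ∧
            ∀ x : ℝ, 1 < x → x ∉ S → ∀ y ∈ U, 0 < y → ∀ κ c : ℝ, κ₀ < κ →
              FreyNear n (fun _ => True) ν θ y x κ c) ∧
        ∀ᵐ x : ℝ, 1 < x → ∀ n : ℕ, 1 ≤ n → ∀ κ : ℝ, 0 < κ → ∀ θ : ℝ, θ < 1 - a n / (12 * κ) →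
          ∀ y ∈ U, 0 < y → ∀ c : ℝ, FreyNear n (fun _ => True) ν θ y x κ c) ∧
    (∃ e : ℕ → ℝ,
      (∀ c : ℝ, 1 / (16 * (Real.log 2) ^ 2) < c → ∀ᶠ n : ℕ in atTop, e n ≤ c * (Real.log n) ^ 2) ∧
      (∀ n : ℕ, 2 ≤ n → e n ≤ max (2 / 3) (expo n / 2)) ∧
      ∀ ν : ℕ → ℝ, Fast ν → ∀ U : Set ℝ, U.Countable →
        (∀ n : ℕ, 2 ≤ n → ∀ κ₀ θ : ℝ, 0 < κ₀ → θ < 1 →
          ∃ S : Set ℝ, dimH S ≤ ENNReal.ofReal (e n / (12 * κ₀) / (1 - θ)) ∧
            ∀ x : ℝ, 1 < x → x ∉ S → ∀ y ∈ U, 0 < y → ∀ κ c : ℝ, κ₀ < κ →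
              FreyNear n FullTwo ν θ y x κ c) ∧
        ∀ᵐ x : ℝ, 1 < x → ∀ n : ℕ, 2 ≤ n → ∀ κ : ℝ, 0 < κ → ∀ θ : ℝ, θ < 1 - e n / (12 * κ) →
          ∀ y ∈ U, 0 < y → ∀ c : ℝ, FreyNear n FullTwo ν θ y x κ c) := by
  constructor
  · obtain ⟨a, h1, h2, h3, h4⟩ := Pool.Agent.Y729.AE.final4
    have hC : ∀ n : ℕ, 1 ≤ n → Counted n (fun _ => True) (max (a n) 0) := by
      intro n hn κ c δ hκ hδ
      obtain ⟨M, hM⟩ := h4 n hn κ c δ hκ hδ
      refine ⟨|M|, fun B hB => ⟨Pool.Agent.Y729.AE.ViolQ n κ c B, (hM B hB).1, ?_, ?_⟩⟩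
      · refine (hM B hB).2.trans ?_
        have h5 : B ^ (a n / κ + δ) ≤ B ^ (max (a n) 0 / κ + δ) :=
          Real.rpow_le_rpow_of_exponent_le hB (by
            have := div_le_div_of_nonneg_right (le_max_left (a n) 0) hκ.le
            linarith)
        have h6 : 0 ≤ B ^ (a n / κ + δ) := Real.rpow_nonneg (by linarith) _
        calc M * B ^ (a n / κ + δ) ≤ |M| * B ^ (a n / κ + δ) :=
              mul_le_mul_of_nonneg_right (le_abs_self M) h6
          _ ≤ _ := mul_le_mul_of_nonneg_left h5 (abs_nonneg M)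
      · intro L hL E τ' hnL hΔ _ hτ' hB' hF
        refine ⟨hL, E, τ', hnL, hΔ, rfl, hτ', hB', ?_⟩
        unfold Frey at hF
        rw [hnL] at hF
        exact not_le.1 hF
    refine ⟨fun n => max (a n) 0, ?_, ?_, ?_, fun ν hν U hU => ⟨?_, ?_⟩⟩
    · intro c hc
      filter_upwards [h1 c hc] with n hn
      have hc0 : 0 < c := lt_trans (by
        have := Real.log_pos (by norm_num : (1 : ℝ) < 2)
        positivity) hc
      exact max_le hn (by positivity)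
    · show max (a 1) 0 = 5 / 2
      rw [h2]
      norm_num
    · intro n hn
      exact max_le (h3 n hn) (le_max_of_le_left (by norm_num))
    · intro n hn κ₀ θ hκ₀ hθ
      exact near_dim (le_max_right _ _) (hC n hn) hκ₀ hν hU hθ
    · exact near_ae {n | 1 ≤ n} (s := fun n => max (a n) 0) (fun n => le_max_right _ _) hC hν hU
  · obtain ⟨e, h1, h3, h4⟩ := Pool.Agent.Y729.FW.final1
    have hC : ∀ n : ℕ, 2 ≤ n → Counted n FullTwo (max (e n) 0) := by
      intro n hn κ c δ hκ hδ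
      obtain ⟨M, hM⟩ := h4 n hn κ c δ hκ hδ
      refine ⟨|M|, fun B hB => ⟨Pool.Agent.Y729.FW.Viol1 n κ c B, (hM B hB).1, ?_, ?_⟩⟩
      · refine (hM B hB).2.trans ?_
        have h5 : B ^ (e n / κ + δ) ≤ B ^ (max (e n) 0 / κ + δ) :=
          Real.rpow_le_rpow_of_exponent_le hB (by
            have := div_le_div_of_nonneg_right (le_max_left (e n) 0) hκ.le
            linarith)
        have h6 : 0 ≤ B ^ (e n / κ + δ) := Real.rpow_nonneg (by linarith) _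
        calc M * B ^ (e n / κ + δ) ≤ |M| * B ^ (e n / κ + δ) :=
              mul_le_mul_of_nonneg_right (le_abs_self M) h6
          _ ≤ _ := mul_le_mul_of_nonneg_left h5 (abs_nonneg M)
      · intro L hL E τ' hnL hΔ hP hτ' hB' hF
        refine ⟨hL, E.c₄ ^ 3 / E.Δ, E, τ', rfl, hnL, hΔ, hP, rfl, hτ', hB', ?_⟩
        unfold Frey at hF
        rw [hnL] at hF
        exact not_le.1 hF
    refine ⟨fun n => max (e n) 0, ?_, ?_, fun ν hν U hU => ⟨?_, ?_⟩⟩
    · intro c hc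
      filter_upwards [h1 c hc] with n hn
      have hc0 : 0 < c := lt_trans (by
        have := Real.log_pos (by norm_num : (1 : ℝ) < 2)
        positivity) hc
      exact max_le hn (by positivity)
    · intro n hn
      exact max_le (h3 n hn) (le_max_of_le_left (by norm_num))
    · intro n hn κ₀ θ hκ₀ hθ
      exact near_dim (le_max_right _ _) (hC n hn) hκ₀ hν hU hθ
    · exact near_ae {n | 2 ≤ n} (s := fun n => max (e n) 0) (fun n => le_max_right _ _) hC hν hU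

end Pool.Agent.Results.MP_c59389_nt.CurvesNearPowers
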