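import Mathlib
import Pool.Agent.Y729.AE.Rat
import Pool.Agent.Y729.FW.Main1
import Pool.Agent.Y729.FW.Cond
import Pool.Agent.H107.MetricZero
import Pool.Agent.H2N.NearSpace

/-!
# Frey's height inequality for all elliptic curves with a modular invariant near a typical number, over all number fields

Frey's inequality says that `h_F(A) ≤ (n / 2 + ε) log N_A + c` for all abelian varieties `A` over
`ℚ` of dimension `n`. Here `A = Res_{L/ℚ} E` is the Weil restriction of an elliptic curve `E` over a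
number field `L` of degree `n` (for `n = 1` these are all elliptic curves over `ℚ`): then
`h_F(A) = n h_F(E)` (stable Faltings heights) and `N_A = N_{L/ℚ}(f_E) |D_L| ^ 2` (Milne) is a
multiple of `|D_L| ^ 2` times the product of the norms of the primes of bad reduction of `E`.

For almost every real (complex) number `z`, for ALL `n`, all slopes `κ > 0`, all `c` and all `σ > a_n / (12 κ)`
(`σ > a_n / (24 κ)`), where `a_1 = 5 / 2` and `a_n = O(log ^ 2 n)`, Frey's inequality with the slope `κ` and the constant `c`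
holds for ALL elliptic curves over ALL number fields `L` of degree `n` whose modular invariant `j` satisfies
`|j - z| ≤ H_L(j) ^ (-σ)`, with finitely many exceptions `(L, j)`. (For `κ = n / 2` and real `z` this is `σ > a_n / (6 n)`; for
almost every real `z` there are infinitely many `(L, j)` as near to `z` for each `σ < n + 1`.) The same holds in every metric space outside a set of
dimension at most `a_n / (12 κ σ)`; and outside a set of dimension zero there are slopes and constants without exceptions.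
-/

set_option autoImplicit false

namespace Pool.Agent.Results.MP_c59389_nt.InvariantsNearPoints

open NumberField IsDedekindDomain Filter MeasureTheory

/-- the modular invariant `j(τ) = E₄(τ) ^ 3 / Δ(τ) = 1 / q + 744 + ⋯` -/
noncomputable def jInv (τ : UpperHalfPlane) : ℂ :=
  ModularForm.E₄ τ ^ 3 / ModularForm.discriminant τ

/-- the archimedean term `- log (|Δ(τ)| (Im τ) ^ 6)` of the Faltings height -/
noncomputable def arch (τ : UpperHalfPlane) : ℝ :=
  -Real.log (‖ModularForm.discriminant τ‖ * τ.im ^ 6)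

/-- Silverman's formula for the stable Faltings height (up to an additive constant which depends on
the normalisation of the metric only) of an elliptic curve with modular invariant `j ∈ K`, where
`τ w` is a point of the upper half plane with modular invariant `j` at the infinite place `w`:
`12 [K : ℚ] h_F = ∑_v log max(|j|_v, 1) + ∑_w [K_w : ℝ] arch (τ w)`. -/
noncomputable def faltings {K : Type} [Field K] [NumberField K] (j : K)
    (τ : InfinitePlace K → UpperHalfPlane) : ℝ :=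
  (∑ᶠ v : HeightOneSpectrum (𝓞 K), Real.log (max (FinitePlace.mk v j) 1) +
    ∑ w : InfinitePlace K, (w.mult : ℝ) * arch (τ w)) / (12 * Module.finrank ℚ K)

/-- the points `τ w` have modular invariant `j` -/
def IsPeriod {K : Type} [Field K] [NumberField K] (j : K)
    (τ : InfinitePlace K → UpperHalfPlane) : Prop := ∀ w, jInv (τ w) = w.embedding j

/-- good reduction at `v`: some Weierstrass equation over `K` of the curve is integral at `v` and
has a discriminant which is a unit at `v` -/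
def GoodAt {K : Type} [Field K] [NumberField K] (v : HeightOneSpectrum (𝓞 K))
    (E : WeierstrassCurve K) : Prop :=
  ∃ C : WeierstrassCurve.VariableChange K,
    v.valuation K (C • E).a₁ ≤ 1 ∧ v.valuation K (C • E).a₂ ≤ 1 ∧ v.valuation K (C • E).a₃ ≤ 1 ∧
    v.valuation K (C • E).a₄ ≤ 1 ∧ v.valuation K (C • E).a₆ ≤ 1 ∧ v.valuation K (C • E).Δ = 1

/-- the product of the norms of the primes of bad reduction; it divides the norm of the
conductor -/
noncomputable def badNorm {K : Type} [Field K] [NumberField K] (E : WeierstrassCurve K) : ℝ :=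
  ∏ᶠ v ∈ {v : HeightOneSpectrum (𝓞 K) | ¬ GoodAt v E}, (Ideal.absNorm v.asIdeal : ℝ)

/-- The exponent `(n + 2) * (n - 1) / (4 * (n - n / p))`, `p` the least prime factor of `n`; it is
`1`, `5 / 4`, `9 / 4`, `7 / 4` for `n = 2, 3, 4, 5`, and `(n + 2) / 4` for every prime `n`. -/
noncomputable def expo (n : ℕ) : ℝ :=
  (((n + 2) * (n - 1) : ℕ) : ℝ) / (4 * ((n - n / n.minFac : ℕ) : ℝ))

/-- Frey's inequality `h_F(A) ≤ κ log N + c` for `A = Res_{L/ℚ} E`, with the divisor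
`N = |D_L| ^ 2 * badNorm E` of the conductor of `A` in the place of the conductor; `τ` is a period
of `E`. -/
def Frey {L : Type} [Field L] [NumberField L] (κ c : ℝ) (E : WeierstrassCurve L)
    (τ : InfinitePlace L → UpperHalfPlane) : Prop :=
  (Module.finrank ℚ L : ℝ) * faltings (E.c₄ ^ 3 / E.Δ) τ ≤
    κ * Real.log (badNorm E * |(discr L : ℝ)| ^ 2) + c

/-- the pairs (field, element) -/
abbrev T : Type := Σ L : IntermediateField ℚ (AlgebraicClosure ℚ), L

open Classical in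
/-- the height -/
noncomputable def ht (t : T) : ℝ :=
  if h : NumberField t.1 then Height.mulHeight₁ t.2 else 0

theorem ht_eq (L : IntermediateField ℚ (AlgebraicClosure ℚ)) [h : NumberField L] (j : L) :
    ht ⟨L, j⟩ = Height.mulHeight₁ j := by
  unfold ht
  rw [dif_pos h]

/-- the pair in the closure -/
def emb (t : T) : IntermediateField ℚ (AlgebraicClosure ℚ) × AlgebraicClosure ℚ := (t.1, t.2)

theorem emb_injective : Function.Injective emb := by
  rintro ⟨L, x⟩ ⟨L', x'⟩ h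
  have h1 : L = L' := congrArg Prod.fst h
  subst h1
  have h2 : (x : AlgebraicClosure ℚ) = x' := congrArg Prod.snd h
  rw [Subtype.ext h2]

theorem one_le_N {L : Type} [Field L] [NumberField L] (E : WeierstrassCurve L) (hΔ : E.Δ ≠ 0) :
    0 ≤ Real.log (badNorm E * |(discr L : ℝ)| ^ 2) := by
  have hfin := Pool.Agent.TH876.TT.bad L E hΔ
  have hbad1 : 1 ≤ badNorm E := by
    have h1 : badNorm E = ∏ w ∈ hfin.toFinset, (Ideal.absNorm w.asIdeal : ℝ) :=
      finprod_mem_eq_finite_toFinset_prod _ hfin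
    rw [h1]
    calc (1 : ℝ) = ∏ _w ∈ hfin.toFinset, (1 : ℝ) := by rw [Finset.prod_const_one]
      _ ≤ _ := Finset.prod_le_prod (fun _ _ => zero_le_one)
          fun w _ => (Pool.Agent.Y729.AE.one_lt_N w).le
  have hD1 : (1 : ℝ) ≤ |(discr L : ℝ)| := by
    have h1 : (1 : ℤ) ≤ |NumberField.discr L| := Int.one_le_abs (NumberField.discr_ne_zero L)
    have h2 : ((1 : ℤ) : ℝ) ≤ ((|NumberField.discr L| : ℤ) : ℝ) := by exact_mod_cast h1
    rwa [Int.cast_abs, Int.cast_one] at h2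
  refine Real.log_nonneg ?_
  have : (1 : ℝ) ≤ |(discr L : ℝ)| ^ 2 := one_le_pow₀ hD1
  nlinarith

/-- All elliptic curves over number fields `L` of degree `n` with `(L, j)` in `J`, `j` the modular invariant, satisfy Frey's
inequality with slope `κ` and constant `c`, with finitely many exceptions `(L, j)`. -/
def FreyOn (n : ℕ) (κ c : ℝ) (J : Set T) : Prop :=
  ∃ F : Set T, F.Finite ∧ ∀ (L : IntermediateField ℚ (AlgebraicClosure ℚ)) [NumberField L]
    (E : WeierstrassCurve L) (τ : InfinitePlace L → UpperHalfPlane),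
    Module.finrank ℚ L = n → E.Δ ≠ 0 → IsPeriod (E.c₄ ^ 3 / E.Δ) τ →
    (⟨L, E.c₄ ^ 3 / E.Δ⟩ : T) ∈ J → (⟨L, E.c₄ ^ 3 / E.Δ⟩ : T) ∉ F → Frey κ c E τ

/-- the violators -/
def Viol (n : ℕ) (κ c : ℝ) : Set T :=
  {t | ∃ (_ : NumberField t.1) (E : WeierstrassCurve t.1) (τ : InfinitePlace t.1 → UpperHalfPlane),
    Module.finrank ℚ t.1 = n ∧ E.Δ ≠ 0 ∧ E.c₄ ^ 3 / E.Δ = t.2 ∧
    IsPeriod (E.c₄ ^ 3 / E.Δ) τ ∧ ¬ Frey κ c E τ}

/-- the height is at least one -/
theorem one_le_mx (t : T) : 1 ≤ max 1 (ht t) := le_max_left _ _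

theorem mx_eq (L : IntermediateField ℚ (AlgebraicClosure ℚ)) [NumberField L] (j : L) :
    max 1 (ht ⟨L, j⟩) = Height.mulHeight₁ j := by
  rw [ht_eq]
  exact max_eq_right (Height.one_le_mulHeight₁ _)

theorem mono {L : Type} [Field L] [NumberField L] {E : WeierstrassCurve L} (hΔ : E.Δ ≠ 0)
    {τ : InfinitePlace L → UpperHalfPlane} {κ c r q : ℝ} (hr : r ≤ κ) (hq : q ≤ c) (h : Frey r q E τ) :
    Frey κ c E τ := by
  have hN := one_le_N E hΔ
  unfold Frey at h ⊢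
  have h1 : r * Real.log (badNorm E * |(discr L : ℝ)| ^ 2) ≤ κ * Real.log (badNorm E * |(discr L : ℝ)| ^ 2) :=
    mul_le_mul_of_nonneg_right hr hN
  linarith

/-- the count of the violators in terms of the height of the invariant -/
theorem count (n : ℕ) {s κ c : ℝ} (hs : 0 ≤ s) (hκ : 0 < κ)
    (h4 : ∀ δ : ℝ, 0 < δ → ∃ M : ℝ, ∀ B : ℝ, 1 ≤ B → (Pool.Agent.Y729.AE.ViolQ n κ c B).Finite ∧
      ((Pool.Agent.Y729.AE.ViolQ n κ c B).ncard : ℝ) ≤ M * B ^ (s / κ + δ)) (ε : ℝ) (hε : 0 < ε) :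
    ∃ C : ℝ, ∀ X : ℝ, 1 ≤ X → {t | t ∈ Viol n κ c ∧ max 1 (ht t) ≤ X}.Finite ∧
      ({t | t ∈ Viol n κ c ∧ max 1 (ht t) ≤ X}.ncard : ℝ) ≤ C * X ^ (s / (12 * κ) + ε) := by
  classical
  obtain ⟨c1, hc1, hfal⟩ := Pool.Agent.Y729.FW.fal_two
  obtain ⟨M, hM⟩ := h4 (12 * ε) (by positivity)
  set q : ℝ := s / κ + 12 * ε with hq
  refine ⟨M * Real.exp (c1 * n / 12 * q), fun X hX => ?_⟩
  have hX0 : 0 < X := by linarith
  set B : ℝ := Real.exp ((Real.log X + c1 * n) / 12) with hB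
  have hlX : 0 ≤ Real.log X := Real.log_nonneg hX
  have hB1 : 1 ≤ B := by
    rw [hB]
    exact Real.one_le_exp (by positivity)
  obtain ⟨hVf, hVc⟩ := hM B hB1
  have hsub : emb '' {t | t ∈ Viol n κ c ∧ max 1 (ht t) ≤ X} ⊆ Pool.Agent.Y729.AE.ViolQ n κ c B := by
    rintro _ ⟨⟨L, j⟩, ⟨⟨hL, E, τ', h1, h2, h3, h5, h6⟩, h7⟩, rfl⟩
    simp only at h1 h2 h3 h5 h6
    have h7' : Height.mulHeight₁ (E.c₄ ^ 3 / E.Δ) ≤ X := by
      rw [h3, ← ht_eq L j]
      exact (le_max_right _ _).trans h7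
    have h8 := hfal L (E.c₄ ^ 3 / E.Δ) τ' h5
    have h9 : Height.logHeight₁ (E.c₄ ^ 3 / E.Δ) ≤ Real.log X := by
      unfold Height.logHeight₁
      exact Real.log_le_log (lt_of_lt_of_le one_pos (Height.one_le_mulHeight₁ _)) h7'
    have h10 : (n : ℝ) * faltings (E.c₄ ^ 3 / E.Δ) τ' ≤ Real.log B := by
      rw [hB, Real.log_exp, le_div_iff₀ (by norm_num)]
      have h11 : (12 : ℝ) * (Module.finrank ℚ L : ℝ) * faltings (E.c₄ ^ 3 / E.Δ) τ' ≤
          Height.logHeight₁ (E.c₄ ^ 3 / E.Δ) + c1 * (Module.finrank ℚ L : ℝ) := h8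
      rw [h1] at h11
      linarith
    refine ⟨hL, E, τ', h1, h2, ?_, h5, h10, ?_⟩
    · exact congrArg (fun t : L => (t : AlgebraicClosure ℚ)) h3
    · have h12 := h6
      unfold Frey at h12
      rw [h1] at h12
      exact not_le.1 h12
  have hfin : {t | t ∈ Viol n κ c ∧ max 1 (ht t) ≤ X}.Finite :=
    Set.Finite.of_finite_image (hVf.subset hsub) emb_injective.injOn
  refine ⟨hfin, ?_⟩
  have h13 : ({t | t ∈ Viol n κ c ∧ max 1 (ht t) ≤ X}.ncard : ℝ) ≤ (Pool.Agent.Y729.AE.ViolQ n κ c B).ncard := by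
    rw [← Set.ncard_image_of_injective _ emb_injective]
    exact_mod_cast Set.ncard_le_ncard hsub hVf
  refine h13.trans (hVc.trans (le_of_eq ?_))
  rw [mul_assoc]
  congr 1
  rw [hB, ← Real.exp_mul, Real.rpow_def_of_pos hX0, ← Real.exp_add]
  congr 1
  rw [hq]
  field_simp
  ring

theorem freyOn_of {n : ℕ} {κ c r : ℝ} {j : ℕ} (hr : r ≤ κ) (hj : -c ≤ j) {J : Set T}
    (h : {t | t ∈ Viol n r (-(j : ℝ)) ∧ t ∈ J}.Finite) : FreyOn n κ c J := by
  refine ⟨_, h, fun L _ E τ hn hΔ hτ hJ hF => ?_⟩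
  by_contra hcon
  exact hF ⟨⟨inferInstance, E, τ, hn, hΔ, rfl, hτ, fun h1 => hcon (mono hΔ hr (by linarith) h1)⟩, hJ⟩

/-- all parameters at once -/
theorem near_all {a : ℕ → ℝ} (ha0 : ∀ n, 0 ≤ a n)
    (ha : ∀ n : ℕ, 1 ≤ n → ∀ κ c δ : ℝ, 0 < κ → 0 < δ → ∃ M : ℝ, ∀ B : ℝ, 1 ≤ B →
      (Pool.Agent.Y729.AE.ViolQ n κ c B).Finite ∧
      ((Pool.Agent.Y729.AE.ViolQ n κ c B).ncard : ℝ) ≤ M * B ^ (a n / κ + δ))
    {V : Type} [NormedAddCommGroup V] [NormedSpace ℝ V] [FiniteDimensional ℝ V]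
    [MeasurableSpace V] [BorelSpace V] (μ : Measure V) [μ.IsAddHaarMeasure]
    (hV : 0 < Module.finrank ℝ V) (φ : T → V) :
    ∀ᵐ z ∂μ, ∀ n : ℕ, 1 ≤ n → ∀ κ σ c : ℝ, 0 < κ → a n / (12 * κ * Module.finrank ℝ V) < σ →
      FreyOn n κ c {t | dist (φ t) z ≤ max 1 (ht t) ^ (-σ)} := by
  have hm : (0 : ℝ) < Module.finrank ℝ V := by exact_mod_cast hV
  have hr : ∀ q : ℕ × ℚ, ∀ᵐ z ∂μ, 1 ≤ q.1 → (0 : ℝ) < q.2 → ∀ σ : ℝ,
      a q.1 / (12 * q.2) / Module.finrank ℝ V < σ → ∀ j : ℕ,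
      {t | t ∈ Viol q.1 q.2 (-(j : ℝ)) ∧ dist (φ t) z ≤ max 1 (ht t) ^ (-σ)}.Finite := by
    rintro ⟨n, r⟩
    by_cases hn : 1 ≤ n
    · by_cases hr0 : (0 : ℝ) < r
      · have h2 := Pool.Agent.H2N.ae_family_space μ hV φ (fun t => max 1 (ht t)) one_le_mx (s := a n / (12 * r))
          (div_nonneg (ha0 n) (by positivity)) (J := ℕ) (fun j => Viol n r (-(j : ℝ)))
          (fun j => count n (ha0 n) hr0 (fun δ hδ => ha n hn r (-(j : ℝ)) δ hr0 hδ))
        filter_upwards [h2] with z hz _ _ σ hσ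
        exact hz σ hσ
      · exact Filter.Eventually.of_forall fun z _ h2 => absurd h2 hr0
    · exact Filter.Eventually.of_forall fun z h2 => absurd h2 hn
  filter_upwards [ae_all_iff.2 hr] with z hz n hn κ σ c hκ hσ
  have hσ0 : 0 < σ := lt_of_le_of_lt (div_nonneg (ha0 n) (by positivity)) hσ
  have h3 : a n / (12 * Module.finrank ℝ V * σ) < κ := by
    rw [div_lt_iff₀ (by positivity)] at hσ ⊢
    nlinarith
  obtain ⟨r, hr1, hr2⟩ := exists_rat_btwn h3
  have hr0 : (0 : ℝ) < r := lt_of_le_of_lt (div_nonneg (ha0 n) (by positivity)) hr1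
  obtain ⟨j, hj⟩ := exists_nat_ge (-c)
  refine freyOn_of hr2.le hj (hz (n, r) hn hr0 σ ?_ j)
  show a n / (12 * r) / Module.finrank ℝ V < σ
  rw [div_div, div_lt_iff₀ (by positivity)]
  rw [div_lt_iff₀ (by positivity)] at hr1
  nlinarith

/-- **Theorem.** There is `a : ℕ → ℝ`, `a ≥ 0`, with `a 1 = 5 / 2`, `a n ≤ max (5 / 2) (15 / 8 + expo n / 2)` for `n ≥ 2` and
`a n = O(log ^ 2 n)` with the following properties. `FreyOn n κ c J` means that Frey's inequality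
`h_F(A) ≤ κ log N + c`, `A = Res_{L/ℚ} E`, holds for ALL elliptic curves `E` over ALL number fields `L` of degree `n` with
`(L, j) ∈ J`, `j` the modular invariant of `E`, with finitely many exceptions `(L, j)`. The number fields are in the
algebraic closure of `ℚ`, and `ht (L, j)` is the height `H_L(j)` relative to `L`.
(1) For every embedding `ι` of the algebraic closure in `ℂ` and almost every complex `z`, for all `n ≥ 1`, `κ > 0`, `c` and
`σ > a n / (24 κ)`: `FreyOn n κ c J` for the set `J` of the `(L, j)` with `|ι j - z| ≤ H_L(j) ^ (-σ)`.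
(2) For every `ι` and almost every real `z`, for all `n ≥ 1`, `κ > 0`, `c` and `σ > a n / (12 κ)`: the same.
(3) For every map `φ` from the algebraic numbers to a metric space `M`, all `n ≥ 1`, `κ > 0` and `σ > 0` there is a set
`S ⊆ M` of Hausdorff dimension at most `a n / (12 κ σ)` such that for all `z` outside `S` and all `c` `FreyOn n κ c J` holds
for the set `J` of the `(L, j)` with `dist (φ j, z) ≤ H_L(j) ^ (-σ)`.
(4) For every map `φ` from the algebraic numbers to a metric space `M` there is a set `S ⊆ M` of dimension zero such that for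
all `z` outside `S`, all `n ≥ 1` and `σ > 0` there are `κ` and `C` with `h_F(A) ≤ κ log N + C` for ALL elliptic curves over
ALL number fields of degree `n` with `dist (φ j, z) ≤ H_L(j) ^ (-σ)`, without exceptions. -/
theorem result :
    ∃ a : ℕ → ℝ, (∀ n, 0 ≤ a n) ∧
      (∀ c : ℝ, 1 / (16 * (Real.log 2) ^ 2) < c → ∀ᶠ n : ℕ in atTop, a n ≤ c * (Real.log n) ^ 2) ∧
      a 1 = 5 / 2 ∧ (∀ n : ℕ, 2 ≤ n → a n ≤ max (5 / 2) (15 / 8 + expo n / 2)) ∧
      (∀ ι : AlgebraicClosure ℚ →+* ℂ,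
        (∀ᵐ z : ℂ, ∀ n : ℕ, 1 ≤ n → ∀ κ σ c : ℝ, 0 < κ → a n / (24 * κ) < σ →
          FreyOn n κ c {t | ‖ι t.2 - z‖ ≤ ht t ^ (-σ)}) ∧
        (∀ᵐ z : ℝ, ∀ n : ℕ, 1 ≤ n → ∀ κ σ c : ℝ, 0 < κ → a n / (12 * κ) < σ →
          FreyOn n κ c {t | ‖ι t.2 - (z : ℂ)‖ ≤ ht t ^ (-σ)})) ∧
      (∀ (M : Type) [MetricSpace M] (φ : AlgebraicClosure ℚ → M),
        (∀ n : ℕ, 1 ≤ n → ∀ κ σ : ℝ, 0 < κ → 0 < σ → ∃ S : Set M,
          dimH S ≤ ENNReal.ofReal (a n / (12 * κ * σ)) ∧ ∀ z : M, z ∉ S → ∀ c : ℝ,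
            FreyOn n κ c {t | dist (φ t.2) z ≤ ht t ^ (-σ)}) ∧
        ∃ S : Set M, dimH S = 0 ∧ ∀ z : M, z ∉ S → ∀ n : ℕ, 1 ≤ n → ∀ σ : ℝ, 0 < σ → ∃ κ C : ℝ,
          ∀ (L : IntermediateField ℚ (AlgebraicClosure ℚ)) [NumberField L] (E : WeierstrassCurve L)
            (τ : InfinitePlace L → UpperHalfPlane), Module.finrank ℚ L = n → E.Δ ≠ 0 →
            IsPeriod (E.c₄ ^ 3 / E.Δ) τ →
            dist (φ (E.c₄ ^ 3 / E.Δ : L)) z ≤ Height.mulHeight₁ (E.c₄ ^ 3 / E.Δ) ^ (-σ) → Frey κ C E τ) := by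
  obtain ⟨a', h1, h2, h3, h4⟩ := Pool.Agent.Y729.AE.final4
  set a : ℕ → ℝ := fun n => max (a' n) 0 with hadef
  have ha0 : ∀ n, 0 ≤ a n := fun n => le_max_right _ _
  have ha : ∀ n : ℕ, 1 ≤ n → ∀ κ c δ : ℝ, 0 < κ → 0 < δ → ∃ M : ℝ, ∀ B : ℝ, 1 ≤ B →
      (Pool.Agent.Y729.AE.ViolQ n κ c B).Finite ∧
      ((Pool.Agent.Y729.AE.ViolQ n κ c B).ncard : ℝ) ≤ M * B ^ (a n / κ + δ) := by
    intro n hn κ c δ hκ hδ
    obtain ⟨M, hM⟩ := h4 n hn κ c δ hκ hδ
    refine ⟨|M|, fun B hB => ⟨(hM B hB).1, (hM B hB).2.trans ?_⟩⟩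
    have hB0 : 0 < B := by linarith
    refine (mul_le_mul_of_nonneg_right (le_abs_self M) (Real.rpow_nonneg hB0.le _)).trans ?_
    apply mul_le_mul_of_nonneg_left _ (abs_nonneg M)
    apply Real.rpow_le_rpow_of_exponent_le hB
    have := div_le_div_of_nonneg_right (le_max_left (a' n) 0) hκ.le
    show a' n / κ + δ ≤ max (a' n) 0 / κ + δ
    linarith
  have hJ : ∀ (n : ℕ) (κ c σ : ℝ) (Q : T → Prop) (Q' : T → Prop), FreyOn n κ c {t | Q t} →
      (∀ (L : IntermediateField ℚ (AlgebraicClosure ℚ)) [NumberField L] (j : L), Q' ⟨L, j⟩ → Q ⟨L, j⟩) →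
      FreyOn n κ c {t | Q' t} := by
    rintro n κ c σ Q Q' ⟨F, hF, h⟩ hQ
    exact ⟨F, hF, fun L _ E τ hn hΔ hτ hJ hnF => h L E τ hn hΔ hτ (hQ L _ hJ) hnF⟩
  refine ⟨a, ha0, ?_, ?_, ?_, fun ι => ⟨?_, ?_⟩, fun M _ φ => ⟨fun n hn κ σ hκ hσ => ?_, ?_⟩⟩
  · intro c hc
    filter_upwards [h1 c hc] with n hn
    have hc0 : 0 < c := lt_trans (by
      have := Real.log_pos (by norm_num : (1 : ℝ) < 2)
      positivity) hc
    exact max_le hn (by positivity)
  · show max (a' 1) 0 = 5 / 2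
    rw [h2]
    norm_num
  · intro n hn
    exact max_le (h3 n hn) (le_max_of_le_left (by norm_num))
  · have g1 := near_all ha0 ha (volume : Measure ℂ) (by rw [Complex.finrank_real_complex]; norm_num)
      (fun t => ι t.2)
    rw [Complex.finrank_real_complex, Nat.cast_ofNat] at g1
    filter_upwards [g1] with z hz n hn κ σ c hκ hσ
    refine hJ n κ c σ _ _ (hz n hn κ σ c hκ (by
      rw [show 12 * κ * 2 = 24 * κ by ring]; exact hσ)) ?_
    intro L _ j h5
    show dist (ι (j : AlgebraicClosure ℚ)) z ≤ max 1 (ht ⟨L, j⟩) ^ (-σ)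
    rw [mx_eq, ← ht_eq, dist_eq_norm]
    exact h5
  · have g1 := near_all ha0 ha (volume : Measure ℝ) (by rw [Module.finrank_self]; exact one_pos)
      (fun t => (ι t.2).re)
    rw [Module.finrank_self, Nat.cast_one] at g1
    filter_upwards [g1] with z hz n hn κ σ c hκ hσ
    refine hJ n κ c σ _ _ (hz n hn κ σ c hκ (by rw [mul_one]; exact hσ)) ?_
    intro L _ j h5
    show dist (ι (j : AlgebraicClosure ℚ)).re z ≤ max 1 (ht ⟨L, j⟩) ^ (-σ)
    rw [mx_eq, ← ht_eq]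
    refine le_trans ?_ (show ‖ι (j : AlgebraicClosure ℚ) - (z : ℂ)‖ ≤ ht ⟨L, j⟩ ^ (-σ) from h5)
    have h6 := Complex.abs_re_le_norm (ι (j : AlgebraicClosure ℚ) - (z : ℂ))
    rw [Complex.sub_re, Complex.ofReal_re] at h6
    exact h6
  · obtain ⟨S, hS1, hS2⟩ := Pool.Agent.H107.ME.dim_family (fun t : T => φ t.2) (fun t => max 1 (ht t)) one_le_mx
      (s := a n / (12 * κ)) (div_nonneg (ha0 n) (by positivity)) hσ (J := ℕ) (fun j => Viol n κ (-(j : ℝ)))
      (fun j => count n (ha0 n) hκ (fun δ hδ => ha n hn κ (-(j : ℝ)) δ hκ hδ))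
    rw [div_div] at hS1
    refine ⟨S, hS1, fun z hz c => ?_⟩
    obtain ⟨j, hj⟩ := exists_nat_ge (-c)
    refine hJ n κ c σ _ _ (freyOn_of (J := {t | dist (φ t.2) z ≤ max 1 (ht t) ^ (-σ)}) le_rfl hj (hS2 z hz j)) ?_
    intro L _ j' h5
    show dist (φ (j' : AlgebraicClosure ℚ)) z ≤ max 1 (ht ⟨L, j'⟩) ^ (-σ)
    rw [mx_eq, ← ht_eq]
    exact h5
  · have hall : ∀ n : ℕ, ∃ S : Set M, dimH S = 0 ∧ ∀ z ∉ S, ∀ σ : ℝ, 0 < σ → ∃ R : ℕ,
        {t | t ∈ Viol (n + 1) ((R : ℝ) + 1) (-((0 : ℕ) : ℝ)) ∧ dist (φ t.2) z ≤ max 1 (ht t) ^ (-σ)}.Finite := by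
      intro n
      refine Pool.Agent.H107.ME.dim_zero (fun t : T => φ t.2) (fun t => max 1 (ht t)) one_le_mx
        (fun R => Viol (n + 1) ((R : ℝ) + 1) (-((0 : ℕ) : ℝ))) (fun ε hε => ?_)
      obtain ⟨R, hR⟩ := exists_nat_ge (a (n + 1) / ε)
      have hR0 : (0 : ℝ) < (R : ℝ) + 1 := by positivity
      obtain ⟨C, hC⟩ := count (n + 1) (c := -((0 : ℕ) : ℝ)) (ha0 (n + 1)) hR0
        (fun δ hδ => ha (n + 1) (by omega) ((R : ℝ) + 1) (-((0 : ℕ) : ℝ)) δ hR0 hδ) (ε / 2) (by positivity)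
      refine ⟨R, |C|, fun X hX => ⟨(hC X hX).1, (hC X hX).2.trans ?_⟩⟩
      have hX0 : 0 < X := by linarith
      refine (mul_le_mul_of_nonneg_right (le_abs_self C) (Real.rpow_nonneg hX0.le _)).trans ?_
      apply mul_le_mul_of_nonneg_left _ (abs_nonneg C)
      apply Real.rpow_le_rpow_of_exponent_le hX
      have h5 : a (n + 1) / (12 * ((R : ℝ) + 1)) ≤ ε / 2 := by
        rw [div_le_iff₀ (by positivity)]
        rw [div_le_iff₀ hε] at hR
        nlinarith
      linarith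
    choose G hG1 hG2 using hall
    obtain ⟨c1, hc1, hfal⟩ := Pool.Agent.Y729.FW.fal_two
    refine ⟨⋃ n, G n, ?_, fun z hz n hn σ hσ => ?_⟩
    · rw [dimH_iUnion]
      simp [hG1]
    · obtain ⟨m, rfl⟩ : ∃ m, n = m + 1 := ⟨n - 1, by omega⟩
      obtain ⟨R, hR⟩ := hG2 m z (fun h => hz (Set.mem_iUnion.2 ⟨m, h⟩)) σ hσ
      obtain ⟨C, hC⟩ := (hR.image (fun t => (Real.log (ht t) + c1 * ((m + 1 : ℕ) : ℝ)) / 12)).bddAbove
      refine ⟨(R : ℝ) + 1, max C 0, fun L _ E τ hnL hΔ hτ hnear => ?_⟩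
      by_cases hF : Frey ((R : ℝ) + 1) (-((0 : ℕ) : ℝ)) E τ
      · refine mono hΔ le_rfl ?_ hF
        rw [Nat.cast_zero, neg_zero]
        exact le_max_right _ _
      · have hmem : (⟨L, E.c₄ ^ 3 / E.Δ⟩ : T) ∈ Viol (m + 1) ((R : ℝ) + 1) (-((0 : ℕ) : ℝ)) :=
          ⟨inferInstance, E, τ, hnL, hΔ, rfl, hτ, hF⟩
        have h6 : (Real.log (ht ⟨L, E.c₄ ^ 3 / E.Δ⟩) + c1 * ((m + 1 : ℕ) : ℝ)) / 12 ≤ C := hC ⟨_, ⟨hmem, by
          show dist (φ ((E.c₄ ^ 3 / E.Δ : L) : AlgebraicClosure ℚ)) z ≤ max 1 (ht ⟨L, E.c₄ ^ 3 / E.Δ⟩) ^ (-σ)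
          rw [mx_eq]
          exact hnear⟩, rfl⟩
        have h8 := hfal L (E.c₄ ^ 3 / E.Δ) τ hτ
        have h11 : (12 : ℝ) * (Module.finrank ℚ L : ℝ) * faltings (E.c₄ ^ 3 / E.Δ) τ ≤
            Height.logHeight₁ (E.c₄ ^ 3 / E.Δ) + c1 * (Module.finrank ℚ L : ℝ) := h8
        have h12 : Height.logHeight₁ (E.c₄ ^ 3 / E.Δ) = Real.log (ht ⟨L, E.c₄ ^ 3 / E.Δ⟩) := by
          rw [ht_eq]
          rfl
        unfold Frey
        rw [h12, hnL] at h11
        rw [hnL]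
        have hN := one_le_N E hΔ
        have h13 : 0 ≤ ((R : ℝ) + 1) * Real.log (badNorm E * |(discr L : ℝ)| ^ 2) := mul_nonneg (by positivity) hN
        have h14 := le_max_left C 0
        linarith

end Pool.Agent.Results.MP_c59389_nt.InvariantsNearPoints
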