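import Mathlib
import Pool.Agent.Y729.AE.Rat
import Pool.Agent.Y729.FW.Main1
import Pool.Agent.Y729.FW.Cond
import Pool.Agent.Y854.GM.Win

/-!
# Windows of heights in which Frey's inequality holds without exceptions

Frey's inequality says that `h_F(A) ≤ (n / 2 + ε) log N_A + c` for all abelian varieties `A` over
`ℚ` of dimension `n`. Here `A = Res_{L/ℚ} E` is the Weil restriction of an elliptic curve `E` over a
number field `L` of degree `n` (for `n = 1` these are all elliptic curves over `ℚ`): then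
`h_F(A) = n h_F(E)` (stable Faltings heights) and `N_A = N_{L/ℚ}(f_E) |D_L| ^ 2` (Milne) is a
multiple of `|D_L| ^ 2` times the product of the norms of the primes of bad reduction of `E`.

Let `v_1, v_2, ... ≥ 1` be a sequence of exponent of convergence at most `τ` (`τ = 0` for
`v_k = 2 ^ k`, `τ = 1 / A` for `v_k = k ^ A`) and `θ < 1`. For all `α > 0` outside a set of small
Hausdorff dimension, ALL elliptic curves over ALL number fields `L` of degree `n` whose modular
invariant has a height (relative to `L`) in the window `[α v_k - v_k ^ θ, α v_k + v_k ^ θ]` satisfy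
Frey's inequality, for all large `k`.
-/

set_option autoImplicit false

namespace Pool.Agent.Results.MP_c59389_nt.WindowsAllCurves

open NumberField IsDedekindDomain Filter

/-- the modular invariant `j(τ) = E₄(τ) ^ 3 / Δ(τ) = 1 / q + 744 + ⋯` -/
noncomputable def jInv (τ : UpperHalfPlane) : ℂ :=
  ModularForm.E₄ τ ^ 3 / ModularForm.discriminant τ

/-- the archimedean term `- log (|Δ(τ)| (Im τ) ^ 6)` of the Faltings height -/
noncomputable def arch (τ : UpperHalfPlane) : ℝ :=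
  -Real.log (‖ModularForm.discriminant τ‖ * τ.im ^ 6)

/-- Silverman's formula for the stable Faltings height (up to an additive constant which depends on
the normalisation of the metric only) of an elliptic curve with modular invariant `j ∈ K`, where
`τ w` is a point of the upper half plane with modular invariant `j` at the infinite place `w`:
`12 [K : ℚ] h_F = ∑_v log max(|j|_v, 1) + ∑_w [K_w : ℝ] arch (τ w)`. -/
noncomputable def faltings {K : Type} [Field K] [NumberField K] (j : K)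
    (τ : InfinitePlace K → UpperHalfPlane) : ℝ :=
  (∑ᶠ v : HeightOneSpectrum (𝓞 K), Real.log (max (FinitePlace.mk v j) 1) +
    ∑ w : InfinitePlace K, (w.mult : ℝ) * arch (τ w)) / (12 * Module.finrank ℚ K)

/-- the points `τ w` have modular invariant `j` -/
def IsPeriod {K : Type} [Field K] [NumberField K] (j : K)
    (τ : InfinitePlace K → UpperHalfPlane) : Prop := ∀ w, jInv (τ w) = w.embedding j

/-- full rational two-torsion: the polynomial `4 x ^ 3 + b₂ x ^ 2 + 2 b₄ x + b₆`, whose zeros are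
the first coordinates of the points of order two, has three zeros in the field -/
def FullTwo {K : Type} [Field K] (E : WeierstrassCurve K) : Prop :=
  ∃ e : Fin 3 → K, Function.Injective e ∧
    ∀ i, 4 * e i ^ 3 + E.b₂ * e i ^ 2 + 2 * E.b₄ * e i + E.b₆ = 0

/-- good reduction at `v`: some Weierstrass equation over `K` of the curve is integral at `v` and
has a discriminant which is a unit at `v` -/
def GoodAt {K : Type} [Field K] [NumberField K] (v : HeightOneSpectrum (𝓞 K))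
    (E : WeierstrassCurve K) : Prop :=
  ∃ C : WeierstrassCurve.VariableChange K,
    v.valuation K (C • E).a₁ ≤ 1 ∧ v.valuation K (C • E).a₂ ≤ 1 ∧ v.valuation K (C • E).a₃ ≤ 1 ∧
    v.valuation K (C • E).a₄ ≤ 1 ∧ v.valuation K (C • E).a₆ ≤ 1 ∧ v.valuation K (C • E).Δ = 1

/-- the product of the norms of the primes of bad reduction; it divides the norm of the
conductor -/
noncomputable def badNorm {K : Type} [Field K] [NumberField K] (E : WeierstrassCurve K) : ℝ :=
  ∏ᶠ v ∈ {v : HeightOneSpectrum (𝓞 K) | ¬ GoodAt v E}, (Ideal.absNorm v.asIdeal : ℝ)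

/-- The exponent `(n + 2) * (n - 1) / (4 * (n - n / p))`, `p` the least prime factor of `n`; it is
`1`, `5 / 4`, `9 / 4`, `7 / 4` for `n = 2, 3, 4, 5`, and `(n + 2) / 4` for every prime `n`. -/
noncomputable def expo (n : ℕ) : ℝ :=
  (((n + 2) * (n - 1) : ℕ) : ℝ) / (4 * ((n - n / n.minFac : ℕ) : ℝ))

/-- Frey's inequality `h_F(A) ≤ κ log N + c` for `A = Res_{L/ℚ} E`, with the divisor
`N = |D_L| ^ 2 * badNorm E` of the conductor of `A` in the place of the conductor; `τ` is a period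
of `E`. -/
def Frey {L : Type} [Field L] [NumberField L] (κ c : ℝ) (E : WeierstrassCurve L)
    (τ : InfinitePlace L → UpperHalfPlane) : Prop :=
  (Module.finrank ℚ L : ℝ) * faltings (E.c₄ ^ 3 / E.Δ) τ ≤
    κ * Real.log (badNorm E * |(discr L : ℝ)| ^ 2) + c

/-- The exponent of convergence of `v` is at most `τ`: the sum of `v_k ^ (-t)` is finite for all
`t > τ`. -/
def ExpLe (v : ℕ → ℝ) (τ : ℝ) : Prop := ∀ t : ℝ, τ < t → Summable fun k : ℕ => v k ^ (-t)

/-- All elliptic curves `E` with the property `P` over all number fields `L` of degree `n`, whose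
modular invariant has a height `H` relative to `L` with `|H - α v_k| ≤ v_k ^ θ`, satisfy Frey's
inequality with slope `κ` and the constant `c`, for all large `k`. -/
def FreyInWindows (n : ℕ) (P : ∀ {L : Type} [Field L], WeierstrassCurve L → Prop)
    (v : ℕ → ℝ) (θ α κ c : ℝ) : Prop :=
  ∃ k₀ : ℕ, ∀ k : ℕ, k₀ ≤ k → ∀ (L : IntermediateField ℚ (AlgebraicClosure ℚ)) [NumberField L]
    (E : WeierstrassCurve L) (τ : InfinitePlace L → UpperHalfPlane),
    Module.finrank ℚ L = n → E.Δ ≠ 0 → P E → IsPeriod (E.c₄ ^ 3 / E.Δ) τ →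
    |Height.mulHeight₁ (E.c₄ ^ 3 / E.Δ) - α * v k| ≤ v k ^ θ → Frey κ c E τ

/-- the pairs (field, element) -/
abbrev T : Type := Σ L : IntermediateField ℚ (AlgebraicClosure ℚ), L

open Classical in
/-- the height -/
noncomputable def ht (t : T) : ℝ :=
  if h : NumberField t.1 then Height.mulHeight₁ t.2 else 0

theorem ht_eq (L : IntermediateField ℚ (AlgebraicClosure ℚ)) [h : NumberField L] (j : L) :
    ht ⟨L, j⟩ = Height.mulHeight₁ j := by
  unfold ht
  rw [dif_pos h]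

/-- the pair in the closure -/
def emb (t : T) : IntermediateField ℚ (AlgebraicClosure ℚ) × AlgebraicClosure ℚ := (t.1, t.2)

theorem emb_injective : Function.Injective emb := by
  rintro ⟨L, x⟩ ⟨L', x'⟩ h
  have h1 : L = L' := congrArg Prod.fst h
  subst h1
  have h2 : (x : AlgebraicClosure ℚ) = x' := congrArg Prod.snd h
  rw [Subtype.ext h2]

theorem one_le_N {L : Type} [Field L] [NumberField L] (E : WeierstrassCurve L) (hΔ : E.Δ ≠ 0) :
    0 ≤ Real.log (badNorm E * |(discr L : ℝ)| ^ 2) := by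
  have hfin := Pool.Agent.TH876.TT.bad L E hΔ
  have hbad1 : 1 ≤ badNorm E := by
    have h1 : badNorm E = ∏ w ∈ hfin.toFinset, (Ideal.absNorm w.asIdeal : ℝ) :=
      finprod_mem_eq_finite_toFinset_prod _ hfin
    rw [h1]
    calc (1 : ℝ) = ∏ _w ∈ hfin.toFinset, (1 : ℝ) := by rw [Finset.prod_const_one]
      _ ≤ _ := Finset.prod_le_prod (fun _ _ => zero_le_one)
          fun w _ => (Pool.Agent.Y729.AE.one_lt_N w).le
  have hD1 : (1 : ℝ) ≤ |(discr L : ℝ)| := by
    have h1 : (1 : ℤ) ≤ |NumberField.discr L| := Int.one_le_abs (NumberField.discr_ne_zero L)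
    have h2 : ((1 : ℤ) : ℝ) ≤ ((|NumberField.discr L| : ℤ) : ℝ) := by exact_mod_cast h1
    rwa [Int.cast_abs, Int.cast_one] at h2
  refine Real.log_nonneg ?_
  have : (1 : ℝ) ≤ |(discr L : ℝ)| ^ 2 := one_le_pow₀ hD1
  nlinarith

/-- the violators with the property `P` -/
def Viol (n : ℕ) (P : ∀ {L : Type} [Field L], WeierstrassCurve L → Prop) (κ c : ℝ) : Set T :=
  {t | ∃ (_ : NumberField t.1) (E : WeierstrassCurve t.1) (τ : InfinitePlace t.1 → UpperHalfPlane),
    Module.finrank ℚ t.1 = n ∧ E.Δ ≠ 0 ∧ P E ∧ E.c₄ ^ 3 / E.Δ = t.2 ∧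
    IsPeriod (E.c₄ ^ 3 / E.Δ) τ ∧ ¬ Frey κ c E τ}

/-- **From a count to windows.** -/
theorem windows_of_count (n : ℕ) (P : ∀ {L : Type} [Field L], WeierstrassCurve L → Prop) (s : ℝ)
    (hs : 0 ≤ s)
    (hcount : ∀ κ c δ : ℝ, 0 < κ → 0 < δ → ∃ M : ℝ, ∀ B : ℝ, 1 ≤ B →
      ∃ V : Set (IntermediateField ℚ (AlgebraicClosure ℚ) × AlgebraicClosure ℚ),
        V.Finite ∧ (V.ncard : ℝ) ≤ M * B ^ (s / κ + δ) ∧
        ∀ (L : IntermediateField ℚ (AlgebraicClosure ℚ)) (_ : NumberField L)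
          (E : WeierstrassCurve L) (τ : InfinitePlace L → UpperHalfPlane),
          Module.finrank ℚ L = n → E.Δ ≠ 0 → P E → IsPeriod (E.c₄ ^ 3 / E.Δ) τ →
          (n : ℝ) * faltings (E.c₄ ^ 3 / E.Δ) τ ≤ Real.log B → ¬ Frey κ c E τ →
          (L, ((E.c₄ ^ 3 / E.Δ : L) : AlgebraicClosure ℚ)) ∈ V)
    (κ₀ : ℝ) (hκ₀ : 0 < κ₀) (v : ℕ → ℝ) (τ θ : ℝ) (hv1 : ∀ k, 1 ≤ v k) (hτ : 0 ≤ τ)
    (hv : ExpLe v τ) (hθ : θ < 1) :
    ∃ E : Set ℝ, dimH E ≤ ENNReal.ofReal ((s / (12 * κ₀) + τ) / (1 - θ)) ∧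
      ∀ α : ℝ, 0 < α → α ∉ E → ∀ κ c : ℝ, κ₀ < κ → FreyInWindows n P v θ α κ c := by
  classical
  have h1θ : 0 < 1 - θ := by linarith
  obtain ⟨c1, hc1, hfal⟩ := Pool.Agent.Y729.FW.fal_two
  have key : ∀ κ c : ℝ, κ₀ < κ → ∃ E : Set ℝ,
      dimH E ≤ ENNReal.ofReal ((s / (12 * κ) + τ) / (1 - θ)) ∧
      ∀ α : ℝ, 0 < α → α ∉ E → ∃ n0 : ℕ, ∀ k : ℕ, n0 ≤ k → ∀ t ∈ Viol n P κ c,
        (v k) ^ θ < |ht t - α * v k| := by
    intro κ c hκ
    have hκ0 : 0 < κ := hκ₀.trans hκ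
    refine Pool.Agent.Y854.GM.windows (Viol n P κ c) ht hv1 hτ hv (by positivity) hθ
      fun ε hε => ?_
    obtain ⟨M, hM⟩ := hcount κ c (12 * ε) hκ0 (by positivity)
    set q : ℝ := s / κ + 12 * ε with hq
    refine ⟨M * Real.exp (c1 * n / 12 * q), fun X hX => ?_⟩
    have hX0 : 0 < X := by linarith
    set B : ℝ := Real.exp ((Real.log X + c1 * n) / 12) with hB
    have hlX : 0 ≤ Real.log X := Real.log_nonneg hX
    have hB1 : 1 ≤ B := by
      rw [hB]
      exact Real.one_le_exp (by positivity)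
    obtain ⟨V, hVf, hVc, hV⟩ := hM B hB1
    have hsub : emb '' {t | t ∈ Viol n P κ c ∧ ht t ≤ X} ⊆ V := by
      rintro _ ⟨⟨L, j⟩, ⟨⟨hL, E, τ', h1, h2, h3, h4, h5, h6⟩, h7⟩, rfl⟩
      simp only at h1 h2 h3 h4 h5 h6
      have h7' : Height.mulHeight₁ (E.c₄ ^ 3 / E.Δ) ≤ X := by
        rw [h4, ← ht_eq L j]
        exact h7
      have h8 := hfal L (E.c₄ ^ 3 / E.Δ) τ' h5
      have h9 : Height.logHeight₁ (E.c₄ ^ 3 / E.Δ) ≤ Real.log X := by
        unfold Height.logHeight₁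
        exact Real.log_le_log (lt_of_lt_of_le one_pos (Height.one_le_mulHeight₁ _)) h7'
      have h10 : (n : ℝ) * faltings (E.c₄ ^ 3 / E.Δ) τ' ≤ Real.log B := by
        rw [hB, Real.log_exp, le_div_iff₀ (by norm_num)]
        have h11 : (12 : ℝ) * (Module.finrank ℚ L : ℝ) * faltings (E.c₄ ^ 3 / E.Δ) τ' ≤
            Height.logHeight₁ (E.c₄ ^ 3 / E.Δ) + c1 * (Module.finrank ℚ L : ℝ) := h8
        rw [h1] at h11
        linarith
      have h12 := hV L hL E τ' h1 h2 h3 h5 h10 h6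
      show (L, (j : AlgebraicClosure ℚ)) ∈ V
      rw [← h4]
      exact h12
    have hfin : {t | t ∈ Viol n P κ c ∧ ht t ≤ X}.Finite :=
      Set.Finite.of_finite_image (hVf.subset hsub) emb_injective.injOn
    refine ⟨hfin, ?_⟩
    have h13 : ({t | t ∈ Viol n P κ c ∧ ht t ≤ X}.ncard : ℝ) ≤ V.ncard := by
      rw [← Set.ncard_image_of_injective _ emb_injective]
      exact_mod_cast Set.ncard_le_ncard hsub hVf
    refine h13.trans (hVc.trans (le_of_eq ?_))
    rw [mul_assoc]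
    congr 1
    rw [hB, ← Real.exp_mul, Real.rpow_def_of_pos hX0, ← Real.exp_add]
    congr 1
    rw [hq]
    field_simp
    ring
  choose! F hF1 hF2 using key
  refine ⟨⋃ m : ℕ, ⋃ l : ℕ, F (κ₀ + 1 / ((m : ℝ) + 1)) (-(l : ℝ)), ?_, ?_⟩
  · rw [dimH_iUnion]
    refine iSup_le fun m => ?_
    rw [dimH_iUnion]
    refine iSup_le fun l => ?_
    have hm : (0 : ℝ) < 1 / ((m : ℝ) + 1) := by positivity
    refine (hF1 _ _ (by linarith)).trans (ENNReal.ofReal_le_ofReal ?_)
    refine div_le_div_of_nonneg_right ?_ h1θ.le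
    have : s / (12 * (κ₀ + 1 / ((m : ℝ) + 1))) ≤ s / (12 * κ₀) :=
      div_le_div_of_nonneg_left hs (by positivity) (by linarith)
    linarith
  · intro α hα hαE κ c hκ
    obtain ⟨m, hm⟩ := exists_nat_one_div_lt (sub_pos.2 hκ)
    obtain ⟨l, hl⟩ := exists_nat_ge (-c)
    have hm0 : (0 : ℝ) < 1 / ((m : ℝ) + 1) := by positivity
    have hα2 : α ∉ F (κ₀ + 1 / ((m : ℝ) + 1)) (-(l : ℝ)) := fun h =>
      hαE (Set.mem_iUnion.2 ⟨m, Set.mem_iUnion.2 ⟨l, h⟩⟩)
    obtain ⟨k₀, hk₀⟩ := hF2 _ _ (by linarith) α hα hα2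
    refine ⟨k₀, fun k hk L _ E τ' hn hΔ hP hτ' hw => ?_⟩
    by_contra hcon
    have hN := one_le_N E hΔ
    have hmem : (⟨L, E.c₄ ^ 3 / E.Δ⟩ : T) ∈ Viol n P (κ₀ + 1 / ((m : ℝ) + 1)) (-(l : ℝ)) := by
      refine ⟨inferInstance, E, τ', hn, hΔ, hP, rfl, hτ', ?_⟩
      intro hfr
      apply hcon
      unfold Frey at hfr ⊢
      have h1 : (κ₀ + 1 / ((m : ℝ) + 1)) * Real.log (badNorm E * |(discr L : ℝ)| ^ 2) ≤
          κ * Real.log (badNorm E * |(discr L : ℝ)| ^ 2) :=
        mul_le_mul_of_nonneg_right (by linarith) hN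
      linarith
    have h2 := hk₀ k hk _ hmem
    rw [ht_eq] at h2
    linarith

/-- **Windows without violators of Frey's inequality.** There is `a : ℕ → ℝ` with `a 1 = 5 / 2`,
`a n ≤ max (5 / 2) (15 / 8 + expo n / 2)` for `n ≥ 2`, `a n = O(log ^ 2 n)`, such that for all
`n ≥ 1`, every slope `κ₀ > 0`, every sequence `v ≥ 1` of exponent of convergence at most `τ` and all
`θ < 1` there is a set `S` of dimension at most `(a n / (12 κ₀) + τ) / (1 - θ)` such that for all
`α > 0` outside `S`, ALL elliptic curves over ALL number fields of degree `n` in the windows satisfy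
Frey's inequality with all slopes `κ > κ₀` and all constants `c`, for large `k`. For curves with full
two-torsion (`n ≥ 2`) the same holds with exponents `e n ≤ max (2 / 3) (expo n / 2)`. -/
theorem result :
    (∃ a : ℕ → ℝ,
      (∀ c : ℝ, 1 / (16 * (Real.log 2) ^ 2) < c → ∀ᶠ n : ℕ in atTop, a n ≤ c * (Real.log n) ^ 2) ∧
      a 1 = 5 / 2 ∧ (∀ n : ℕ, 2 ≤ n → a n ≤ max (5 / 2) (15 / 8 + expo n / 2)) ∧
      ∀ n : ℕ, 1 ≤ n → ∀ κ₀ : ℝ, 0 < κ₀ → ∀ (v : ℕ → ℝ) (τ θ : ℝ), (∀ k, 1 ≤ v k) → 0 ≤ τ →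
        ExpLe v τ → θ < 1 →
        ∃ S : Set ℝ, dimH S ≤ ENNReal.ofReal ((a n / (12 * κ₀) + τ) / (1 - θ)) ∧
          ∀ α : ℝ, 0 < α → α ∉ S → ∀ κ c : ℝ, κ₀ < κ →
            FreyInWindows n (fun _ => True) v θ α κ c) ∧
    (∃ e : ℕ → ℝ,
      (∀ c : ℝ, 1 / (16 * (Real.log 2) ^ 2) < c → ∀ᶠ n : ℕ in atTop, e n ≤ c * (Real.log n) ^ 2) ∧
      (∀ n : ℕ, 2 ≤ n → e n ≤ max (2 / 3) (expo n / 2)) ∧
      ∀ n : ℕ, 2 ≤ n → ∀ κ₀ : ℝ, 0 < κ₀ → ∀ (v : ℕ → ℝ) (τ θ : ℝ), (∀ k, 1 ≤ v k) → 0 ≤ τ →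
        ExpLe v τ → θ < 1 →
        ∃ S : Set ℝ, dimH S ≤ ENNReal.ofReal ((e n / (12 * κ₀) + τ) / (1 - θ)) ∧
          ∀ α : ℝ, 0 < α → α ∉ S → ∀ κ c : ℝ, κ₀ < κ →
            FreyInWindows n FullTwo v θ α κ c) := by
  constructor
  · obtain ⟨a, h1, h2, h3, h4⟩ := Pool.Agent.Y729.AE.final4
    refine ⟨fun n => max (a n) 0, ?_, ?_, ?_, ?_⟩
    · intro c hc
      filter_upwards [h1 c hc] with n hn
      have hc0 : 0 < c := lt_trans (by
        have := Real.log_pos (by norm_num : (1 : ℝ) < 2)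
        positivity) hc
      exact max_le hn (by positivity)
    · show max (a 1) 0 = 5 / 2
      rw [h2]
      norm_num
    · intro n hn
      exact max_le (h3 n hn) (le_max_of_le_left (by norm_num))
    · intro n hn κ₀ hκ₀ v τ θ hv1 hτ hv hθ
      refine windows_of_count n (fun _ => True) (max (a n) 0) (le_max_right _ _) ?_ κ₀ hκ₀ v τ θ
        hv1 hτ hv hθ
      intro κ c δ hκ hδ
      obtain ⟨M, hM⟩ := h4 n hn κ c δ hκ hδ
      refine ⟨|M|, fun B hB => ⟨Pool.Agent.Y729.AE.ViolQ n κ c B, (hM B hB).1, ?_, ?_⟩⟩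
      · refine (hM B hB).2.trans ?_
        have h5 : B ^ (a n / κ + δ) ≤ B ^ (max (a n) 0 / κ + δ) :=
          Real.rpow_le_rpow_of_exponent_le hB (by
            have := div_le_div_of_nonneg_right (le_max_left (a n) 0) hκ.le
            linarith)
        have h6 : 0 ≤ B ^ (a n / κ + δ) := Real.rpow_nonneg (by linarith) _
        calc M * B ^ (a n / κ + δ) ≤ |M| * B ^ (a n / κ + δ) :=
              mul_le_mul_of_nonneg_right (le_abs_self M) h6
          _ ≤ _ := mul_le_mul_of_nonneg_left h5 (abs_nonneg M)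
      · intro L hL E τ' hnL hΔ _ hτ' hB' hF
        refine ⟨hL, E, τ', hnL, hΔ, rfl, hτ', hB', ?_⟩
        unfold Frey at hF
        rw [hnL] at hF
        exact not_le.1 hF
  · obtain ⟨e, h1, h3, h4⟩ := Pool.Agent.Y729.FW.final1
    refine ⟨fun n => max (e n) 0, ?_, ?_, ?_⟩
    · intro c hc
      filter_upwards [h1 c hc] with n hn
      have hc0 : 0 < c := lt_trans (by
        have := Real.log_pos (by norm_num : (1 : ℝ) < 2)
        positivity) hc
      exact max_le hn (by positivity)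
    · intro n hn
      exact max_le (h3 n hn) (le_max_of_le_left (by norm_num))
    · intro n hn κ₀ hκ₀ v τ θ hv1 hτ hv hθ
      refine windows_of_count n FullTwo (max (e n) 0) (le_max_right _ _) ?_ κ₀ hκ₀ v τ θ
        hv1 hτ hv hθ
      intro κ c δ hκ hδ
      obtain ⟨M, hM⟩ := h4 n hn κ c δ hκ hδ
      refine ⟨|M|, fun B hB => ⟨Pool.Agent.Y729.FW.Viol1 n κ c B, (hM B hB).1, ?_, ?_⟩⟩
      · refine (hM B hB).2.trans ?_
        have h5 : B ^ (e n / κ + δ) ≤ B ^ (max (e n) 0 / κ + δ) :=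
          Real.rpow_le_rpow_of_exponent_le hB (by
            have := div_le_div_of_nonneg_right (le_max_left (e n) 0) hκ.le
            linarith)
        have h6 : 0 ≤ B ^ (e n / κ + δ) := Real.rpow_nonneg (by linarith) _
        calc M * B ^ (e n / κ + δ) ≤ |M| * B ^ (e n / κ + δ) :=
              mul_le_mul_of_nonneg_right (le_abs_self M) h6
          _ ≤ _ := mul_le_mul_of_nonneg_left h5 (abs_nonneg M)
      · intro L hL E τ' hnL hΔ hP hτ' hB' hF
        refine ⟨hL, E.c₄ ^ 3 / E.Δ, E, τ', rfl, hnL, hΔ, hP, rfl, hτ', hB', ?_⟩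
        unfold Frey at hF
        rw [hnL] at hF
        exact not_le.1 hF

end Pool.Agent.Results.MP_c59389_nt.WindowsAllCurves
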